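import Pool.Agent.W155.SY.Core

/-!
# Sylow subloops in finite automorphic loops: reduction modulo a solvable normal subloop

Let `Q` be a finite automorphic loop and `f` a homomorphism from `Q` onto a loop `K` whose kernel is
solvable. If `K` is a group or has a solvable Sylow `p`-subloop, then `Q` has a Sylow `p`-subloop.

Solvable means: there is a subnormal series with abelian group factors
(`Pool.Agent.W155.SY.Step`, `Pool.Agent.W155.SY.Solv`).

The preimage of a solvable Sylow `p`-subloop of `K` is a solvable automorphic loop, to which the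
theorem on Hall subloops of finite solvable automorphic loops applies.
-/

set_option autoImplicit false

namespace Pool.Agent.Results.MP_b7c14b_al.SolvableByLoop

open H675HL
open Pool.Agent.W155.SY (Solv)

/-- The finite loop `Q` with identity `e` has a Sylow `p`-subloop: a subset containing `e`, closed
under multiplication and both divisions, whose order is the largest power of `p` dividing `|Q|`. -/
def HasSylow (Q : Type) [Fintype Q] [Mul Q] (e : Q) (p : ℕ) : Prop :=
  ∃ S : Finset Q, e ∈ S ∧
    (∀ a ∈ S, ∀ b ∈ S, a * b ∈ S) ∧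
    (∀ a b x : Q, a ∈ S → b ∈ S → a * x = b → x ∈ S) ∧
    (∀ a b y : Q, a ∈ S → b ∈ S → y * a = b → y ∈ S) ∧
    S.card = p ^ (Fintype.card Q).factorization p

theorem result :
    ∀ (Q : Type) [Fintype Q] [Mul Q] (e : Q),
      (∀ a : Q, e * a = a ∧ a * e = a) →
      (∀ a b : Q, ∃! x : Q, a * x = b) →
      (∀ a b : Q, ∃! y : Q, y * a = b) →
      (∀ x u v z₁ z₂ z₃ : Q, z₁ * x = x * u → z₂ * x = x * v →
          z₃ * x = x * (u * v) → z₃ = z₁ * z₂) →
      (∀ x y u v z₁ z₂ z₃ : Q, (y * x) * z₁ = y * (x * u) →
          (y * x) * z₂ = y * (x * v) →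
          (y * x) * z₃ = y * (x * (u * v)) → z₃ = z₁ * z₂) →
      (∀ x y u v z₁ z₂ z₃ : Q, z₁ * (x * y) = (u * x) * y →
          z₂ * (x * y) = (v * x) * y →
          z₃ * (x * y) = ((u * v) * x) * y → z₃ = z₁ * z₂) →
      ∀ (K : Type) [Mul K],
        (∀ x y z : K, x * y = x * z → y = z) →
        (∀ x y z : K, y * x = z * x → y = z) →
        ∀ f : Q → K, Function.Surjective f →
        (∀ x y, f (x * y) = f x * f y) →
        Solv (fun a b : Q => a * b) e {x | f x = f e} →
        ∀ p : ℕ, p.Prime →
        ((∀ x y z : K, (x * y) * z = x * (y * z)) ∨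
          ∃ P : Finset K, Solv (fun a b : K => a * b) (f e) (P : Set K) ∧
            P.card = p ^ (Nat.card K).factorization p) →
        HasSylow Q e p := by
  intro Q _ hMul e h1 hL hR haT haL haR
  classical
  let A : AL Q :=
    { mul := hMul.mul
      one := e
      one_mul' := fun a => (h1 a).1
      mul_one' := fun a => (h1 a).2
      bijL := fun a => ⟨fun x y h => (hL a (a * y)).unique h rfl, fun b => (hL a b).exists⟩
      bijR := fun a => ⟨fun x y h => (hR a (y * a)).unique h rfl, fun b => (hR a b).exists⟩
      autL := by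
        intro x y u v a b h2 h3
        obtain ⟨z, hz⟩ := (hL (x * y) (x * (y * (u * v)))).exists
        rw [← hz]
        exact congrArg (fun w => (x * y) * w) (haL y x u v a b z h2 h3 hz).symm
      autR := by
        intro x y u v a b h2 h3
        obtain ⟨z, hz⟩ := (hR (y * x) (((u * v) * y) * x)).exists
        rw [← hz]
        exact congrArg (fun w => w * (y * x)) (haR y x u v a b z h2 h3 hz).symm
      autT := by
        intro x u v a b h2 h3
        obtain ⟨z, hz⟩ := (hR x (x * (u * v))).exists
        rw [← hz]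
        exact congrArg (fun w => w * x) (haT x u v a b z h2 h3 hz).symm }
  have key : ∀ p : ℕ, (∃ H : Set Q, H675HL.Sub H ∧
      Nat.card H = p ^ (Nat.card Q).factorization p) → HasSylow Q e p := by
    rintro p ⟨H, ⟨hH1, hH2⟩, hcard⟩
    have hmul : ∀ a ∈ H, ∀ b ∈ H, a * b ∈ H := hH2
    refine ⟨H.toFinset, Set.mem_toFinset.2 hH1, ?_, ?_, ?_, ?_⟩
    · intro a ha b hb
      exact Set.mem_toFinset.2 (hmul a (Set.mem_toFinset.1 ha) b (Set.mem_toFinset.1 hb))
    · intro a b x ha hb hx
      rw [Set.mem_toFinset] at ha hb ⊢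
      have hinj : Function.Injective (fun y : H => (⟨a * y.1, hmul a ha y.1 y.2⟩ : H)) := by
        intro y z h
        exact Subtype.ext ((hL a (a * z.1)).unique (congrArg Subtype.val h) rfl)
      obtain ⟨y, hy⟩ := (Finite.injective_iff_surjective.1 hinj) ⟨b, hb⟩
      have h2 : a * y.1 = b := congrArg Subtype.val hy
      rw [(hL a b).unique hx h2]
      exact y.2
    · intro a b x ha hb hx
      rw [Set.mem_toFinset] at ha hb ⊢
      have hinj : Function.Injective (fun y : H => (⟨y.1 * a, hmul y.1 y.2 a ha⟩ : H)) := by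
        intro y z h
        exact Subtype.ext ((hR a (z.1 * a)).unique (congrArg Subtype.val h) rfl)
      obtain ⟨y, hy⟩ := (Finite.injective_iff_surjective.1 hinj) ⟨b, hb⟩
      have h2 : y.1 * a = b := congrArg Subtype.val hy
      rw [(hR a b).unique hx h2]
      exact y.2
    · rw [Set.toFinset_card, ← Nat.card_eq_fintype_card, ← Nat.card_eq_fintype_card (α := Q)]
      exact hcard
  intro K hK cl cr f hsur hf hker p hp hyp
  refine key p ?_
  rcases hyp with hassoc | ⟨P, hP, hcard⟩
  · have hone : ∀ k : K, f e * k = k := by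
      intro k
      obtain ⟨x, rfl⟩ := hsur k
      rw [← hf, (h1 x).1]
    have hinv : ∀ k : K, ∃ l : K, l * k = f e := by
      intro k
      obtain ⟨x, rfl⟩ := hsur k
      obtain ⟨y, hy⟩ := (hR x e).exists
      exact ⟨f y, by rw [← hf, hy]⟩
    let G : Group K :=
      @Group.ofLeftAxioms K hK ⟨fun k => (hinv k).choose⟩ ⟨f e⟩ hassoc hone
        (fun k => (hinv k).choose_spec)
    exact @Pool.Agent.W155.SY.core_group Q A _ K G f hf hker p hp
  · exact Pool.Agent.W155.SY.core f hsur hf cl cr hker p hp P hP hcard

end Pool.Agent.Results.MP_b7c14b_al.SolvableByLoop
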